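import Pool.Agent.MP_c69980_ag.H43.Spec9

/-!
Twisted Taylor coefficients have bounded weight.
-/

set_option autoImplicit false

namespace Pool.Agent.MP_c69980_ag.H43

open H60 Finset

lemma tw_scale {ι κ A : Type} [CommRing A] [Algebra ℂ A] {H : MvPolynomial (ι ⊕ κ) ℂ} {d e : ℕ}
    (h : BiH H d e) (z : ι → A) (u : κ → A) (l : A) :
    MvPolynomial.aeval (Sum.elim (fun c => l * z c) u) H =
      l ^ d * MvPolynomial.aeval (Sum.elim z u) H := by
  rw [H.as_sum, map_sum, map_sum, mul_sum]
  refine sum_congr rfl fun m hm => ?_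
  have : ∑ i ∈ m.support, m i * ((Sum.elim (fun _ => (1, 0)) fun _ => (0, 1) :
      ι ⊕ κ → ℕ × ℕ) i).1 = d := by
    have h1 := congrArg (AddMonoidHom.fst ℕ ℕ) (h (MvPolynomial.mem_support_iff.1 hm))
    rw [Finsupp.weight_apply, Finsupp.sum, map_sum] at h1
    simpa using h1
  rw [MvPolynomial.aeval_monomial, MvPolynomial.aeval_monomial, mul_left_comm, ← this,
    ← prod_pow_eq_pow_sum, Finsupp.prod, Finsupp.prod, ← prod_mul_distrib]
  refine congrArg _ (prod_congr rfl fun i _ => ?_)
  cases i <;> simp [mul_pow]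

section
variable {K : Type} [Field K] [Algebra ℂ K] {ι : Type}

omit [Algebra ℂ K] in
lemma tw_C {V : ValuationSubring K} {a : K} (h : a ∈ V) (m : ι →₀ ℕ) :
    MvPowerSeries.coeff m (MvPowerSeries.C a : PW ι K) ∈ V := by
  classical
  rw [MvPowerSeries.coeff_C]
  split_ifs
  · exact h
  · exact V.zero_mem

/-- The series with coefficients in `V`. -/
def twCV (ι : Type) (V : ValuationSubring K) (hV : ∀ c, algebraMap ℂ K c ∈ V) :
    Subalgebra ℂ (PW ι K) where
  carrier := {x | ∀ m, MvPowerSeries.coeff m x ∈ V}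
  mul_mem' := fun {x y} hx hy m => by
    classical
    rw [MvPowerSeries.coeff_mul]
    exact sum_mem fun p _ => mul_mem (hx _) (hy _)
  add_mem' := fun {x y} hx hy m => by
    rw [map_add]
    exact add_mem (hx m) (hy m)
  algebraMap_mem' := fun r m => by
    rw [MvPowerSeries.algebraMap_apply]
    exact tw_C (hV r) m

/-- `V` as a complex vector space. -/
def twW (V : ValuationSubring K) (hV : ∀ c, algebraMap ℂ K c ∈ V) : Submodule ℂ K where
  carrier := V
  add_mem' := fun hx hy => add_mem hx hy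
  zero_mem' := V.zero_mem
  smul_mem' := fun c x hx => by
    rw [Algebra.smul_def]
    exact mul_mem (hV c) hx

lemma tw_iff {V : ValuationSubring K} (hV : ∀ c, algebraMap ℂ K c ∈ V) (a : K) (x : PW ι K) :
    (∀ m, MvPowerSeries.coeff m x / a ∈ V) ↔ MvPowerSeries.C a⁻¹ * x ∈ twCV ι V hV :=
  forall_congr' fun m => by rw [MvPowerSeries.coeff_C_mul, div_eq_inv_mul]

end

theorem sTw : STw := by
  intro t a M Θ K _ _ u ι d' T b V S e e' σ hu hT hV hd hb hS hσ
  refine ⟨fun j h hh m c hc => ?_, fun j j' x x' hx hx' m c hc => ?_⟩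
  · have h0 : u c ≠ 0 := fun k => hu (funext fun c' => by
      have := hc c'
      rw [k, map_zero, le_zero_iff] at this
      exact (map_eq_zero _).1 this)
    refine (tw_iff hV _ _).2 ?_ m
    have h1 : T (h / u c ^ j) ∈ twCV ι V hV := fun m =>
      hT.ind (fun _ => twW V hV) (fun _ i x hx => hd i x hx) 0 _ (hh c hc) m
    have h2 : MvPolynomial.aeval (Sum.elim (fun c' => MvPowerSeries.C (u c' / u c)) b) (S c) ∈
        twCV ι V hV := by
      refine (Algebra.adjoin_le ?_ : Algebra.adjoin ℂ (Set.range _) ≤ twCV ι V hV)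
        (by rw [Algebra.adjoin_range_eq_range_aeval]; exact ⟨_, rfl⟩)
      rintro _ ⟨c' | c', rfl⟩
      · refine tw_C ((V.valuation_le_one_iff _).1 ?_)
        rw [map_div₀]
        exact div_le_one_of_le₀ (hc c') zero_le
      · exact hb c'
    have h3 := tw_scale (hS.1 c) (fun c' => MvPowerSeries.C (u c' / u c)) b
      (MvPowerSeries.C (u c) : PW ι K)
    have h4 : (fun c' => MvPowerSeries.C (u c) * MvPowerSeries.C (u c' / u c) : Fin M → PW ι K) =
        MvPowerSeries.C ∘ u := funext fun c' => by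
      rw [← map_mul, mul_div_cancel₀ _ h0]
      rfl
    rw [h4] at h3
    have h5 := (hσ c).symm.trans h3
    have h6 : T h = T (h / u c ^ j) * T (u c) ^ j := by
      rw [← map_pow, ← map_mul, div_mul_cancel₀ _ (pow_ne_zero _ h0)]
    have h7 : (MvPowerSeries.C (u c ^ (e * j))⁻¹ : PW ι K) * (MvPowerSeries.C (u c) ^ e) ^ j = 1 := by
      rw [← pow_mul, ← map_pow, ← map_mul, inv_mul_cancel₀ (pow_ne_zero _ h0), map_one]
    rw [h6, mul_assoc, ← mul_pow, mul_comm (T (u c)), h5, mul_pow, mul_left_comm, ← mul_assoc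
      (MvPowerSeries.C _), h7, one_mul]
    exact mul_mem h1 (pow_mem h2 j)
  · refine (tw_iff hV _ _).2 ?_ m
    have := mul_mem ((tw_iff hV _ _).1 fun m => hx m c hc) ((tw_iff hV _ _).1 fun m => hx' m c hc)
    rwa [mul_mul_mul_comm, ← map_mul, ← mul_inv, ← pow_add] at this

end Pool.Agent.MP_c69980_ag.H43
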