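import Pool.Agent.MP_c69980_ag.H43.Spec10

/-!
A divisor of the small leaf sweeps out a divisor of the large leaf.
-/

set_option autoImplicit false

namespace Pool.Agent.MP_c69980_ag.H43

open MvPolynomial H60 Finset

section
variable {F K : Type} [Field F] [Field K] [Algebra F K] {ι : Type}

lemma DivT_opt {y : ι → K} (h : K) (P : MvPolynomial (Option ι) F) :
    aeval (fun o : Option ι => o.elim h y) P =
      Polynomial.eval₂ (aeval y : MvPolynomial ι F →ₐ[F] K).toRingHom h
        (optionEquivLeft F ι P) := by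
  induction P using MvPolynomial.induction_on with
  | C c => simp [optionEquivLeft_C]
  | add p q hp hq => rw [map_add, map_add, Polynomial.eval₂_add, hp, hq]
  | mul_X p i hp =>
    rw [map_mul, map_mul, Polynomial.eval₂_mul, hp]
    cases i <;> simp [optionEquivLeft_X_none, optionEquivLeft_X_some]

lemma DivT_unit (V : ValuationSubring K) {x : K} (h0 : x ≠ 0) (h1 : x ∈ V) (h2 : x⁻¹ ∈ V) :
    V.valuation x = 1 := by
  refine le_antisymm ((V.valuation_le_one_iff _).2 h1) ?_
  have := (V.valuation_le_one_iff _).2 h2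
  rwa [map_inv₀, inv_le_one₀ (by simpa [zero_lt_iff] using h0)] at this

end

section
variable {K : Type} [Field K] [Algebra ℂ K] (V : ValuationSubring K)

lemma DivT_kill (hC : ∀ c, algebraMap ℂ K c ∈ V) (R : Subring K) (RV : ∀ x ∈ R, x ∈ V)
    (E : Derivation ℂ K K) {b : K} (hb : b ∈ R) (h4 : V.valuation (E b) = 1)
    (hm : ∀ g ∈ R, V.valuation g < 1 → V.valuation (E g) < 1) (n : ℕ) :
    ∀ a : ℕ → K, (∀ i, a i ∈ R ∧ V.valuation (E (a i)) < 1) → V.valuation (a n) = 1 →
      ¬ V.valuation (∑ i ∈ range (n + 1), a i * b ^ i) < 1 := by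
  have le := fun y (hy : y ∈ V) => (V.valuation_le_one_iff y).2 hy
  induction n with
  | zero => intro a _ h2 h3; simp [h2] at h3
  | succ n ih =>
    intro a ha h2 h3
    have hN : ∀ i : ℕ, ((i + 1 : ℕ) : K) = algebraMap ℂ K (i + 1 : ℕ) := fun i => by simp
    refine ih (fun i => (i + 1 : ℕ) * a (i + 1)) (fun i => ⟨mul_mem (natCast_mem _ _) (ha _).1,
      ?_⟩) ?_ ?_
    · rw [E.leibniz, E.map_natCast, smul_zero, add_zero, smul_eq_mul, map_mul, mul_comm]
      exact mul_lt_one_of_lt_of_le (ha _).2 (le _ (natCast_mem _ _))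
    · rw [map_mul, h2, hN, val_c V hC (Nat.cast_ne_zero.2 n.succ_ne_zero), one_mul]
    · have h5 := hm _ (sum_mem fun i _ => mul_mem (ha i).1 (pow_mem hb i)) h3
      have h6 : E (∑ i ∈ range (n + 1 + 1), a i * b ^ i) =
          ∑ i ∈ range (n + 1 + 1), E (a i) * b ^ i +
            (∑ i ∈ range (n + 1), (i + 1 : ℕ) * a (i + 1) * b ^ i) * E b := by
        simp only [map_sum, E.leibniz, E.leibniz_pow, smul_eq_mul, nsmul_eq_mul,
          sum_add_distrib, sum_mul]
        rw [add_comm, sum_range_succ' (fun i => a i * (i * (b ^ (i - 1) * E b)))]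
        simp only [Nat.cast_zero, zero_mul, mul_zero, add_zero, Nat.add_sub_cancel]
        exact congrArg₂ (· + ·) (sum_congr rfl fun i _ => by ring) (sum_congr rfl fun i _ => by ring)
      have h7 := V.valuation.map_sub_lt h5 (V.valuation.map_sum_lt (s := range (n + 1 + 1))
        (f := fun i => E (a i) * b ^ i) one_ne_zero fun i _ => by
          rw [map_mul]; exact mul_lt_one_of_lt_of_le (ha i).2 (le _ (RV _ (pow_mem hb i))))
      rwa [h6, add_sub_cancel_left, map_mul, h4, mul_one] at h7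

lemma DivT_step (F : IntermediateField ℂ K) (R : Subring K) (RV : ∀ x ∈ R, x ∈ V)
    (FR : ∀ x ∈ F, x ∈ R) (E : Derivation ℂ K K) (EV : ∀ x ∈ R, E x ∈ V) (EF : ∀ x ∈ F, E x = 0)
    (hm : ∀ g ∈ R, V.valuation g < 1 → V.valuation (E g) < 1) {ι : Type} {y : ι → K}
    (yR : ∀ i, y i ∈ R) (yE : ∀ i, V.valuation (E (y i)) < 1)
    (res : ∀ P : MvPolynomial ι F, P ≠ 0 → V.valuation (aeval y P) = 1) {b : K} (hb : b ∈ R)
    (h4 : V.valuation (E b) = 1) (P : MvPolynomial (Option ι) F) (a1 : P ≠ 0) :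
    V.valuation (aeval (fun o : Option ι => o.elim b y) P) = 1 := by
  have le := fun y (hy : y ∈ V) => (V.valuation_le_one_iff y).2 hy
  have hC : ∀ c, algebraMap ℂ K c ∈ V := fun c => RV _ (FR _ (F.algebraMap_mem c))
  have a3 : ∀ P : MvPolynomial ι F, aeval y P ∈ R ∧ V.valuation (E (aeval y P)) < 1 := fun P => by
    induction P using MvPolynomial.induction_on with
    | C c =>
      rw [aeval_C]
      exact ⟨FR _ c.2, by rw [show E (algebraMap F K c) = 0 from EF _ c.2]; simp⟩
    | add p q hp hq =>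
      rw [map_add, map_add]
      exact ⟨add_mem hp.1 hq.1, V.valuation.map_add_lt hp.2 hq.2⟩
    | mul_X p i hp =>
      rw [map_mul, aeval_X, E.leibniz, smul_eq_mul, smul_eq_mul]
      refine ⟨mul_mem hp.1 (yR i), V.valuation.map_add_lt ?_ ?_⟩ <;> rw [map_mul, mul_comm]
      · exact mul_lt_one_of_lt_of_le (yE i) (le _ (RV _ hp.1))
      · exact mul_lt_one_of_lt_of_le hp.2 (le _ (RV _ (yR i)))
  have := DivT_kill V hC R RV E hb h4 hm _ (fun i => aeval y ((optionEquivLeft F ι P).coeff i))
    (fun i => a3 _) (res _ (Polynomial.leadingCoeff_ne_zero.2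
      ((optionEquivLeft F ι).map_ne_zero_iff.2 a1)))
  rw [DivT_opt, Polynomial.eval₂_eq_sum_range]
  refine le_antisymm (le _ (RV _ (sum_mem fun i _ => mul_mem (a3 _).1 (pow_mem hb i))))
    (not_lt.1 this)

open Classical in
/-- The residue map, extended by zero. -/
noncomputable def DivT_r (x : K) : IsLocalRing.ResidueField V :=
  if h : x ∈ V then IsLocalRing.residue V ⟨x, h⟩ else 0

omit [Algebra ℂ K] in
lemma DivT_r_eq {x : K} (h : x ∈ V) : DivT_r V x = IsLocalRing.residue V ⟨x, h⟩ := dif_pos h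

omit [Algebra ℂ K] in
lemma DivT_r_add {x y : K} (hx : x ∈ V) (hy : y ∈ V) :
    DivT_r V (x + y) = DivT_r V x + DivT_r V y := by
  rw [DivT_r_eq V hx, DivT_r_eq V hy, DivT_r_eq V (add_mem hx hy), ← map_add]; rfl

omit [Algebra ℂ K] in
lemma DivT_r_mul {x y : K} (hx : x ∈ V) (hy : y ∈ V) :
    DivT_r V (x * y) = DivT_r V x * DivT_r V y := by
  rw [DivT_r_eq V hx, DivT_r_eq V hy, DivT_r_eq V (mul_mem hx hy), ← map_mul]; rfl

omit [Algebra ℂ K] in
lemma DivT_r_zero {x : K} (hx : x ∈ V) : DivT_r V x = 0 ↔ V.valuation x < 1 := by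
  rw [DivT_r_eq V hx, IsLocalRing.residue_eq_zero_iff, V.valuation_lt_one_iff]

omit [Algebra ℂ K] in
lemma DivT_r_sum {σ : Type} (s : Finset σ) {x : σ → K} (hx : ∀ i, x i ∈ V) :
    DivT_r V (∑ i ∈ s, x i) = ∑ i ∈ s, DivT_r V (x i) := by
  classical
  induction s using Finset.induction_on with
  | empty => rw [sum_empty, sum_empty]; exact (DivT_r_zero V (zero_mem V)).2 (by simp)
  | insert i s hi ih =>
    rw [sum_insert hi, sum_insert hi, DivT_r_add V (hx i) (sum_mem fun j _ => hx j), ih]

omit [Algebra ℂ K] in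
lemma DivT_r_surj (x : IsLocalRing.ResidueField V) : ∃ y ∈ V, DivT_r V y = x := by
  obtain ⟨y, rfl⟩ := IsLocalRing.residue_surjective x
  exact ⟨y, y.2, DivT_r_eq V y.2⟩

lemma DivT_r_aeval [Algebra ℂ (IsLocalRing.ResidueField V)] (hC : ∀ c, algebraMap ℂ K c ∈ V)
    (hr : ∀ c, DivT_r V (algebraMap ℂ K c) = algebraMap ℂ _ c) {σ : Type} {x : σ → K}
    (hx : ∀ i, x i ∈ V) (P : MvPolynomial σ ℂ) :
    aeval x P ∈ V ∧ DivT_r V (aeval x P) = aeval (fun i => DivT_r V (x i)) P := by
  induction P using MvPolynomial.induction_on with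
  | C c => rw [aeval_C, aeval_C]; exact ⟨hC c, hr c⟩
  | add p q hp hq =>
    rw [map_add, map_add, DivT_r_add V hp.1 hq.1, hp.2, hq.2]
    exact ⟨add_mem hp.1 hq.1, rfl⟩
  | mul_X p i hp =>
    rw [map_mul, map_mul, aeval_X, aeval_X, DivT_r_mul V hp.1 (hx i), hp.2]
    exact ⟨mul_mem hp.1 (hx i), rfl⟩

end

lemma DivT_ind {κ : Type} [Field κ] [Algebra ℂ κ] {s g : ℕ} {lam : Fin s → Fin g → ℂ}
    (h : LinearIndependent ℂ lam) (b : Fin s → κ)
    (hb : ∀ i, ∑ l, b l * algebraMap ℂ κ (lam l i) = 0) (l : Fin s) : b l = 0 := by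
  refine (Module.forall_dual_apply_eq_zero_iff ℂ (b l)).1 fun φ => ?_
  refine Fintype.linearIndependent_iff.1 h (fun l => φ (b l)) (funext fun i => ?_) l
  have := congrArg φ (hb i)
  rw [map_sum, map_zero] at this
  rw [Finset.sum_apply, Pi.zero_apply, ← this]
  refine sum_congr rfl fun l _ => ?_
  rw [mul_comm (b l), ← Algebra.smul_def, map_smul, Pi.smul_apply, smul_eq_mul, smul_eq_mul,
    mul_comm]

lemma DivT_imm {t a M s : ℕ} {w : Fin M → Option (Fin t)} {Θ : Pt t a → Fin M → ℂ} {PP : PT M t a}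
    {K : Type} [Field K] [Algebra ℂ K] {u : Fin M → K} {lam : Fin s → Pt t a} {β : Cht M t}
    (V : ValuationSubring K) (imm : GKimm w Θ PP) (on : OnG w Θ u) (hβ : Ch w β u)
    (hC : ∀ c, algebraMap ℂ K c ∈ V) (cV : ∀ x, co β u x ∈ V) (ind : LinearIndependent ℂ lam)
    (b : Fin s → K) (bV : ∀ l, b l ∈ V)
    (h : ∀ x, V.valuation (∑ l, b l * vf (PP β) (fun i => algebraMap ℂ K (lam l i)) (co β u) x) < 1)
    (l : Fin s) : DivT_r V (b l) = 0 := by
  letI : Algebra ℂ (IsLocalRing.ResidueField V) :=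
    ((IsLocalRing.residue V).comp ((algebraMap ℂ K).codRestrict V hC)).toAlgebra
  have hr : ∀ c, DivT_r V (algebraMap ℂ K c) = algebraMap ℂ _ c := fun c => DivT_r_eq V (hC c)
  have r1 : DivT_r V 1 = 1 := by
    have := hr 1
    rwa [map_one, map_one] at this
  let y : Fin M → IsLocalRing.ResidueField V := fun c => DivT_r V (co β u (c, none))
  have y0 : ∀ o, y (β o) ≠ 0 := fun o => by
    have e : co β u (β o, none) * co β u (β none, o) = 1 := by
      simp only [co]
      rw [div_mul_div_cancel₀ (hβ none).2, div_self (hβ o).2]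
    have := congrArg (DivT_r V) e
    rw [DivT_r_mul V (cV _) (cV _), r1] at this
    exact left_ne_zero_of_mul_eq_one this
  have yc : co β y = fun x => DivT_r V (co β u x) := funext fun x => by
    have e : co β u (x.1, none) = co β u x * co β u (β x.2, none) := by
      simp only [co]
      rw [div_mul_div_cancel₀ (hβ x.2).2]
    show y x.1 / y (β x.2) = _
    rw [div_eq_iff (y0 _)]
    show DivT_r V (co β u (x.1, none)) = _ * DivT_r V (co β u (β x.2, none))
    rw [e, DivT_r_mul V (cV _) (cV _)]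
  have yo : OnG w Θ y := by
    refine ⟨fun o => ⟨β o, (hβ o).1, y0 o⟩, fun P d h1 h2 => ?_⟩
    have e : (fun c => co β u (c, none)) = (u (β none))⁻¹ • u := funext fun c => by
      simp only [co, Pi.smul_apply, smul_eq_mul]
      rw [div_eq_inv_mul]
    rw [← (DivT_r_aeval V hC hr (x := fun c => co β u (c, none)) (fun c => cV _) P).2, e,
      aeval_smul_hom h1, on.eqs P d h1 h2, mul_zero]
    exact (DivT_r_zero V (zero_mem V)).2 (by simp)
  have aV := fun i x => DivT_r_aeval V hC hr cV (PP β i x)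
  have := imm _ y (fun i => ∑ l, DivT_r V (b l) * algebraMap ℂ _ (lam l i)) β yo
    (fun o => ⟨(hβ o).1, y0 o⟩) fun x => by
      have vV : ∀ l, vf (PP β) (fun i => algebraMap ℂ K (lam l i)) (co β u) x ∈ V := fun l =>
        sum_mem fun i _ => mul_mem (hC _) (aV i x).1
      have e := (DivT_r_zero V (sum_mem fun l _ => mul_mem (bV l) (vV l))).2 (h x)
      rw [DivT_r_sum V _ fun l => mul_mem (bV l) (vV l)] at e
      rw [← e, vf, yc]
      simp only [sum_mul]
      rw [sum_comm]
      refine sum_congr rfl fun l _ => ?_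
      rw [DivT_r_mul V (bV l) (vV l), vf, DivT_r_sum V _ fun i => mul_mem (hC _) (aV i x).1,
        mul_sum]
      refine sum_congr rfl fun i _ => ?_
      rw [DivT_r_mul V (hC _) (aV i x).1, hr, (aV i x).2, mul_assoc]
  exact DivT_ind ind _ (fun i => congrFun this i) l

theorem sDivT (h : SKei) : SDivT := by
  intro t a M w Θ PP K _ _ u F F' r m lam d f c lam' d' f' β V y' gk bx cF lf sim dv
    ⟨h₀, h01, h02, h03⟩
  have le := fun x (hx : x ∈ V) => (V.valuation_le_one_iff x).2 hx
  have hC : ∀ c, algebraMap ℂ K c ∈ V := fun c => dv.fV _ (F'.algebraMap_mem c)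
  have FR : ∀ x ∈ F', x ∈ RF F' (co β u) := fun x hx => (RF F' (co β u)).algebraMap_mem ⟨x, hx⟩
  have cR : ∀ x, co β u x ∈ RF F' (co β u) := fun x => Algebra.subset_adjoin ⟨x, rfl⟩
  have RV : ∀ x ∈ RF F' (co β u), x ∈ V := fun x hx => by
    induction hx using Algebra.adjoin_induction with
    | mem x hx => obtain ⟨i, rfl⟩ := hx; exact dv.cV i
    | algebraMap c => exact dv.fV _ c.2
    | add x y _ _ hx hy => exact add_mem hx hy
    | mul x y _ _ hx hy => exact mul_mem hx hy
  have comb : ∀ b : Fin (r + 1) → K, ∃ E : Derivation ℂ K K, ∀ x, E x = ∑ l, b l * d l x :=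
    fun b => ⟨∑ l, b l • d l, fun x => by
      have := congrFun (map_sum Derivation.coeFnAddMonoidHom (fun l => b l • d l) univ) x
      rwa [Finset.sum_apply] at this⟩
  obtain ⟨D, hD⟩ := comb c
  have dF : ∀ l, ∀ x ∈ F', d l x ∈ F' := fun l x hx => by
    have e := congrArg (d l) ((lf.ker x).1 hx)
    rw [map_sum, map_zero] at e
    rw [lf.ker, ← e]
    refine sum_congr rfl fun l' _ => ?_
    rw [Derivation.leibniz, (bx.cst _).1 (cF l') l, smul_zero, add_zero, smul_eq_mul, bx.com]
  have dR : ∀ l, ∀ x ∈ RF F' (co β u), d l x ∈ RF F' (co β u) := fun l x hx => by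
    have h0 : ∀ c : ℂ, algebraMap ℂ K c ∈ RF F' (co β u) := fun c => FR _ (F'.algebraMap_mem c)
    have h1 : ∀ P : CP M t, aeval (co β u) P ∈ RF F' (co β u) := fun P => by
      induction P using MvPolynomial.induction_on with
      | C c => rw [aeval_C]; exact h0 c
      | add p q hp hq => rw [map_add]; exact add_mem hp hq
      | mul_X p i hp => rw [map_mul, aeval_X]; exact mul_mem hp (cR i)
    induction hx using Algebra.adjoin_induction with
    | mem x hx =>
      obtain ⟨x, rfl⟩ := hx
      rw [bx.vel l β dv.ch x]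
      exact sum_mem fun i _ => mul_mem (h0 _) (h1 _)
    | algebraMap c => exact FR _ (dF l _ c.2)
    | add x y _ _ hx hy => rw [map_add]; exact add_mem hx hy
    | mul x y h h' hx hy =>
      rw [Derivation.leibniz, smul_eq_mul, smul_eq_mul]
      exact add_mem (mul_mem h hy) (mul_mem h' hx)
  have DR : ∀ x ∈ RF F' (co β u), D x ∈ RF F' (co β u) := fun x hx => by
    rw [hD]; exact sum_mem fun l _ => mul_mem (FR _ (lf.le (cF l))) (dR l x hx)
  let ψ : RF F' (co β u) →+* V :=
    (RF F' (co β u)).val.toRingHom.codRestrict V fun x => RV _ x.2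
  let p : Ideal (RF F' (co β u)) := (IsLocalRing.maximalIdeal V).comap ψ
  have hp : p.IsPrime := Ideal.comap_isPrime _ _
  have mp : ∀ x : RF F' (co β u), x ∈ p ↔ V.valuation (x : K) < 1 := fun x =>
    V.valuation_lt_one_iff (ψ x)
  obtain ⟨g, g1, g2⟩ : ∃ g : RF F' (co β u), g ∈ p ∧ V.valuation (D g) = 1 := by
    by_contra hn
    rcases sim p (fun x hx y hy => (mp y).2 (by
      have hy' : (y : K) = D x := hy.trans (hD _).symm
      rw [hy']
      exact (le _ (RV _ (DR _ x.2))).lt_of_ne fun e => hn ⟨x, hx, e⟩)) with e | e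
    · have := (mp ⟨h₀, h01⟩).2 h03
      rw [e, Ideal.mem_bot] at this
      exact h02 (congrArg Subtype.val this)
    · exact hp.ne_top e
  let E : Fin (r + 1) → RF F' (co β u) →+ RF F' (co β u) := fun l =>
    { toFun := fun x => ⟨D g, DR _ g.2⟩ * ⟨d l x, dR l _ x.2⟩ - ⟨d l g, dR l _ g.2⟩ * ⟨D x, DR _ x.2⟩
      map_zero' := Subtype.ext (by simp)
      map_add' := fun x y => Subtype.ext (by simp; ring) }
  have Ev : ∀ l (x : RF F' (co β u)), (E l x : K) = D g * d l x - d l g * D x := fun l x => rfl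
  have El : ∀ l (x y : RF F' (co β u)), E l (x * y) = E l x * y + x * E l y := fun l x y =>
    Subtype.ext (by
      simp only [Ev, MulMemClass.coe_mul, AddMemClass.coe_add, Derivation.leibniz, smul_eq_mul]
      ring)
  have Eg : ∀ l, E l g = 0 := fun l => Subtype.ext (by rw [Ev]; simp [mul_comm])
  have : CharZero K := charZero_of_injective_algebraMap (algebraMap ℂ K).injective
  obtain ⟨q, q1, q2, q3, q4⟩ := h.1 _ _ E El (fun m => by
    have : ((m : F') + 1) ≠ 0 := Nat.cast_add_one_ne_zero m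
    simpa using (IsUnit.mk0 _ this).map (algebraMap F' (RF F' (co β u)))) p hp
  have gq : g ∈ q := q4 (Ideal.span {g}) (fun l x hx => by
    obtain ⟨k, rfl⟩ := Ideal.mem_span_singleton'.1 hx
    rw [El, Eg, mul_zero, add_zero]
    exact Ideal.mul_mem_left _ _ (Ideal.mem_span_singleton_self g))
    ((Ideal.span_singleton_le_iff_mem _).2 g1) (Ideal.mem_span_singleton_self g)
  have g0 : g ∉ (⊥ : Ideal (RF F' (co β u))) := fun e => by
    rw [Ideal.mem_bot] at e
    rw [e] at g2
    simp at g2
  have pq : ∀ x ∈ p, x ∈ q := fun x hx => by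
    by_contra xq
    let v : Fin m → RF F' (co β u) := fun i => ⟨co β u (y' i), cR _⟩
    have a1 := h.2 F' _ q p q1 q2 m v (fun H hH => by
      by_contra H0
      have e : ((aeval v H : RF F' (co β u)) : K) = aeval (co β u ∘ y') H :=
        AlgHom.congr_fun (comp_aeval (f := v) (RF F' (co β u)).val) H
      have := (mp _).1 hH
      rw [e, dv.res H H0] at this
      exact lt_irrefl _ this) x hx xq
    have a2 := h.2 F' _ ⊥ q Ideal.isPrime_bot bot_le _ _ a1 g gq g0
    have a3 : AlgebraicIndependent F' fun i => ((Fin.cons g (Fin.cons x v : Fin (m + 1) → _) :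
        Fin (m + 1 + 1) → RF F' (co β u)) i : K) := algebraicIndependent_iff.2 fun H hH => a2 H
      (Ideal.mem_bot.2 (Subtype.ext
        ((AlgHom.congr_fun (comp_aeval (f := _) (RF F' (co β u)).val) H).trans hH)))
    have := a3.cardinalMk_le_trdeg
    rw [← lf.tb.cardinalMk_eq_trdeg, Cardinal.mk_fintype, Cardinal.mk_fintype, Nat.cast_le] at this
    simp at this
  have Ep : ∀ l, ∀ x ∈ RF F' (co β u), V.valuation x < 1 →
      V.valuation (D g * d l x - d l g * D x) < 1 := fun l x hx h1 =>
    (mp _).1 (q2 (q3 l ⟨x, hx⟩ (pq _ ((mp _).2 h1))))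
  have FV : ∀ x ∈ F, x ∈ V := fun x hx => dv.fV x (lf.le hx)
  have main : ∀ k ≤ r, ∃ y : Fin k → CI M t, ∀ P : MvPolynomial (Fin k) F, P ≠ 0 →
      V.valuation (aeval (co β u ∘ y) P) = 1 := fun k => by
    induction k with
    | zero =>
      refine fun _ => ⟨Fin.elim0, fun P hP => ?_⟩
      rw [eq_C_of_isEmpty P] at hP ⊢
      rw [aeval_C]
      refine DivT_unit V ((map_ne_zero _).2 fun e => hP (by rw [e, map_zero]))
        (FV _ (Subtype.property _)) (FV _ (inv_mem (Subtype.property _)))
    | succ k ih =>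
      intro hk
      obtain ⟨y, hy⟩ := ih (by omega)
      let z : Option (Fin k) → K := fun o => o.elim g (co β u ∘ y)
      have zR : ∀ o, z o ∈ RF F' (co β u) := by
        rintro (_ | j)
        exacts [g.2, cR _]
      have nl : ¬ LinearIndependent (IsLocalRing.ResidueField V)
          fun l (o : Option (Fin k)) => DivT_r V (d l (z o)) := fun e => by
        have := e.fintype_card_le_finrank
        simp at this
        omega
      obtain ⟨b', b1, l₀, b2⟩ := Fintype.not_linearIndependent_iff.1 nl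
      choose b bV hb using fun l => DivT_r_surj V (b' l)
      obtain ⟨δ, hδ⟩ := comb b
      have δV : ∀ x ∈ RF F' (co β u), δ x ∈ V := fun x hx => by
        rw [hδ]; exact sum_mem fun l _ => mul_mem (bV l) (RV _ (dR l x hx))
      have δz : ∀ o, V.valuation (δ (z o)) < 1 := fun o => by
        rw [← DivT_r_zero V (δV _ (zR o)), hδ,
          DivT_r_sum V _ fun l => mul_mem (bV l) (RV _ (dR l _ (zR o)))]
        have := congrFun b1 o
        rw [Finset.sum_apply, Pi.zero_apply] at this
        rw [← this]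
        refine sum_congr rfl fun l _ => ?_
        rw [DivT_r_mul V (bV l) (RV _ (dR l _ (zR o))), hb]
        rfl
      have δm : ∀ x ∈ RF F' (co β u), V.valuation x < 1 → V.valuation (δ x) < 1 := fun x hx h1 => by
        have e : D g * δ x = ∑ l, b l * (D g * d l x - d l g * D x) + δ g * D x := by
          rw [hδ x, hδ g, mul_sum, sum_mul, ← sum_add_distrib]
          exact sum_congr rfl fun l _ => by ring
        have : V.valuation (D g * δ x) < 1 := by
          rw [e]
          refine V.valuation.map_add_lt (V.valuation.map_sum_lt one_ne_zero fun l _ => ?_) ?_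
          · rw [map_mul, mul_comm]
            exact mul_lt_one_of_lt_of_le (Ep l x hx h1) (le _ (bV l))
          · rw [map_mul]
            exact mul_lt_one_of_lt_of_le (δz none) (le _ (RV _ (DR x hx)))
        rwa [map_mul, g2, one_mul] at this
      obtain ⟨x, hx⟩ : ∃ x, V.valuation (δ (co β u x)) = 1 := by
        by_contra hn
        refine b2 ((hb l₀).symm.trans
          (DivT_imm V gk.imm bx.on dv.ch hC dv.cV bx.ind b bV (fun x => ?_) l₀))
        have := (le _ (δV _ (cR x))).lt_of_ne fun e => hn ⟨x, e⟩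
        rw [hδ] at this
        rwa [sum_congr rfl fun l _ => congrArg (b l * ·) (bx.vel l β dv.ch x)] at this
      refine ⟨fun i => (_root_.finSuccEquiv k i).elim x y, fun P hP => ?_⟩
      have := DivT_step V F (RF F' (co β u)).toSubring RV (fun x hx => FR x (lf.le hx)) δ δV
        (fun x hx => by
          rw [hδ]; exact sum_eq_zero fun l _ => by rw [(bx.cst x).1 hx l, mul_zero])
        δm (y := co β u ∘ y) (fun i => cR _) (fun i => δz (some i)) hy (cR x) hx
        (rename (_root_.finSuccEquiv k) P)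
        fun e => hP (rename_injective _ (_root_.finSuccEquiv k).injective (by rw [e, map_zero]))
      rw [aeval_rename] at this
      rw [← this]
      refine congrArg (fun v : Fin (k + 1) → K => V.valuation (aeval v P)) (funext fun i => ?_)
      show co β u ((_root_.finSuccEquiv k i).elim x y) =
        (_root_.finSuccEquiv k i).elim (co β u x) (co β u ∘ y)
      cases _root_.finSuccEquiv k i <;> rfl
  obtain ⟨y, hy⟩ := main r le_rfl
  exact ⟨y, dv.ch, FV, dv.cV, hy⟩

end Pool.Agent.MP_c69980_ag.H43
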